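import Mathlib

/-! Algebraic elements over subfields of `ℝ`: transitivity, exchange, conjugation. -/

open Set Polynomial

namespace Pool.Agent.R32.MaxSub

open scoped Polynomial.Bivariate

/-- `F(x)` -/
noncomputable def ext (F : Subfield ℝ) (x : ℝ) : Subfield ℝ :=
  (IntermediateField.adjoin F {x}).toSubfield

theorem mem_ext_iff (F : Subfield ℝ) (x α : ℝ) :
    α ∈ ext F x ↔ ∃ r s : (↥F)[X], α = aeval x r / aeval x s :=
  IntermediateField.mem_adjoin_simple_iff F α

theorem self_mem_ext (F : Subfield ℝ) (x : ℝ) : x ∈ ext F x :=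
  IntermediateField.mem_adjoin_simple_self F x

theorem le_ext (F : Subfield ℝ) (x : ℝ) : F ≤ ext F x := fun a ha =>
  (IntermediateField.adjoin F {x}).algebraMap_mem ⟨a, ha⟩

theorem aeval_mem {F G : Subfield ℝ} (h : F ≤ G) {x : ℝ} (hx : x ∈ G) (r : (↥F)[X]) :
    aeval x r ∈ G := by
  rw [aeval_eq_sum_range]
  apply Subfield.sum_mem
  intro i _
  rw [Algebra.smul_def]
  exact G.mul_mem (h (r.coeff i).2) (G.pow_mem hx i)

theorem ext_le {F G : Subfield ℝ} (h : F ≤ G) {x : ℝ} (hx : x ∈ G) : ext F x ≤ G := by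
  intro α hα
  obtain ⟨r, s, rfl⟩ := (mem_ext_iff F x α).1 hα
  exact G.div_mem (aeval_mem h hx r) (aeval_mem h hx s)

theorem ext_mono {F G : Subfield ℝ} (h : F ≤ G) (x : ℝ) : ext F x ≤ ext G x :=
  ext_le (h.trans (le_ext G x)) (self_mem_ext G x)

theorem ext_eq_self {F : Subfield ℝ} {x : ℝ} (hx : x ∈ F) : ext F x = F :=
  le_antisymm (ext_le le_rfl hx) (le_ext F x)

/-- elements algebraic over `F` -/
noncomputable def Acl (F : Subfield ℝ) : Subfield ℝ := (algebraicClosure F ℝ).toSubfield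

theorem mem_Acl (F : Subfield ℝ) (s : ℝ) : s ∈ Acl F ↔ IsAlgebraic F s :=
  mem_algebraicClosure_iff

theorem le_Acl (F : Subfield ℝ) : F ≤ Acl F := fun a ha =>
  (algebraicClosure F ℝ).algebraMap_mem ⟨a, ha⟩

theorem Acl_mono {F G : Subfield ℝ} (h : F ≤ G) : Acl F ≤ Acl G := by
  intro s hs
  rw [mem_Acl] at hs ⊢
  letI : Algebra F G := (Subfield.inclusion h).toAlgebra
  haveI : IsScalarTower F G ℝ := IsScalarTower.of_algebraMap_eq fun _ => rfl
  exact hs.tower_top G

theorem Acl_le {F G : Subfield ℝ} (h : G ≤ Acl F) : Acl G ≤ Acl F := by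
  -- first enlarge `G` so that it contains `F`
  set H := G ⊔ F with hH
  have hHF : H ≤ Acl F := sup_le h (le_Acl F)
  have hFH : F ≤ H := le_sup_right
  refine (Acl_mono (le_sup_left : G ≤ H)).trans ?_
  intro s hs
  rw [mem_Acl] at hs ⊢
  letI : Algebra F H := (Subfield.inclusion hFH).toAlgebra
  haveI : IsScalarTower F H ℝ := IsScalarTower.of_algebraMap_eq fun _ => rfl
  haveI : Algebra.IsAlgebraic F H := by
    constructor
    intro x
    have hx := (mem_Acl F _).1 (hHF x.2)
    exact (isAlgebraic_algebraMap_iff (R := F) (S := H) (A := ℝ)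
      (FaithfulSMul.algebraMap_injective H ℝ)).1 hx
  exact hs.restrictScalars F

/-- a bivariate polynomial over `F` -/
noncomputable def toR (F : Subfield ℝ) (P : (↥F)[X][Y]) : ℝ[X][Y] :=
  P.map (mapRingHom (algebraMap F ℝ))

theorem toR_derivative (F : Subfield ℝ) (P : (↥F)[X][Y]) :
    toR F (derivative P) = derivative (toR F P) := by
  simp [toR, derivative_map]

theorem eval_eq (F : Subfield ℝ) (P : (↥F)[X][Y]) (x s : ℝ) :
    (toR F P).evalEval x s = (P.map (aeval x : (↥F)[X] →ₐ[F] ℝ).toRingHom).eval s := by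
  induction P using Polynomial.induction_on' with
  | add p q hp hq =>
    simp only [toR, Polynomial.map_add, evalEval_add, eval_add] at hp hq ⊢
    rw [hp, hq]
  | monomial n a =>
    rw [toR, map_monomial, map_monomial, eval_monomial, evalEval, eval_monomial, eval_mul,
      eval_pow, eval_C]
    congr 1
    exact eval_map_algebraMap a x

/-- Algebraic elements over `F(x)` are roots of bivariate polynomials. -/
theorem exists_biv (F : Subfield ℝ) (x s : ℝ) (h : IsAlgebraic (ext F x) s) :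
    ∃ P : (↥F)[X][Y], P.map (aeval x : (↥F)[X] →ₐ[F] ℝ).toRingHom ≠ 0 ∧
      (P.map (aeval x : (↥F)[X] →ₐ[F] ℝ).toRingHom).eval s = 0 := by
  have h1 : IsAlgebraic (IntermediateField.adjoin F {x}) s := h
  have h2 : IsAlgebraic (Algebra.adjoin F {x}) s := by
    open IntermediateField.algebraAdjoinAdjoin in
    exact (IsFractionRing.isAlgebraic_iff (Algebra.adjoin F {x})
      (IntermediateField.adjoin F {x}) ℝ).2 h1
  obtain ⟨q, hq0, hq⟩ := h2
  -- lift the coefficients
  have hsurj : ∀ c : Algebra.adjoin F ({x} : Set ℝ), ∃ r : (↥F)[X], aeval x r = (c : ℝ) := by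
    intro c
    have hc : (c : ℝ) ∈ (aeval x : (↥F)[X] →ₐ[F] ℝ).range := by
      rw [← Algebra.adjoin_singleton_eq_range_aeval]
      exact c.2
    obtain ⟨r, hr⟩ := hc
    exact ⟨r, hr⟩
  choose ρ hρ using hsurj
  refine ⟨∑ i ∈ q.support, monomial i (ρ (q.coeff i)), ?_, ?_⟩
  all_goals
    have hmap : (∑ i ∈ q.support, monomial i (ρ (q.coeff i)) : (↥F)[X][Y]).map
        (aeval x : (↥F)[X] →ₐ[F] ℝ).toRingHom = q.map (algebraMap _ ℝ) := by
      conv_rhs => rw [q.as_sum_support]
      simp only [Polynomial.map_sum, map_monomial]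
      refine Finset.sum_congr rfl fun i _ => ?_
      congr 1
      exact hρ _
    rw [hmap]
  · intro h0
    apply hq0
    exact (Polynomial.map_eq_zero_iff (FaithfulSMul.algebraMap_injective _ ℝ)).1 h0
  · rw [eval_map_algebraMap]
    exact hq

end Pool.Agent.R32.MaxSub
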