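import Pool.Agent.R32.MaxSub.Alg

/-! Separable bivariate equations, exchange, conjugation. -/

open Set Polynomial

namespace Pool.Agent.R32.MaxSub

open scoped Polynomial.Bivariate

/-- the evaluation of the inner variable -/
noncomputable def phi (F : Subfield ℝ) (x : ℝ) : (↥F)[X] →+* ℝ :=
  (aeval x : (↥F)[X] →ₐ[F] ℝ).toRingHom

theorem exists_biv_sep (F : Subfield ℝ) (x s : ℝ) (h : IsAlgebraic (ext F x) s) :
    ∃ P : (↥F)[X][Y], (toR F P).evalEval x s = 0 ∧
      (derivative (toR F P)).evalEval x s ≠ 0 := by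
  classical
  have hex : ∃ n : ℕ, ∃ P : (↥F)[X][Y], P.map (phi F x) ≠ 0 ∧ (P.map (phi F x)).eval s = 0 ∧
      (P.map (phi F x)).natDegree = n := by
    obtain ⟨P, h1, h2⟩ := exists_biv F x s h
    exact ⟨_, P, h1, h2, rfl⟩
  obtain ⟨P, h1, h2, h3⟩ := Nat.find_spec hex
  refine ⟨P, ?_, ?_⟩
  · rw [eval_eq]
    exact h2
  · rw [← toR_derivative, eval_eq]
    change ((derivative P).map (phi F x)).eval s ≠ 0
    intro h0
    have hdeg : (P.map (phi F x)).natDegree ≠ 0 := by
      intro hd
      obtain ⟨c, hc⟩ := natDegree_eq_zero.1 hd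
      rw [← hc, eval_C] at h2
      rw [← hc, h2, C_0] at h1
      exact h1 rfl
    have hder : derivative (P.map (phi F x)) ≠ 0 := by
      intro hd
      exact hdeg (natDegree_eq_zero_of_derivative_eq_zero hd)
    have hlt := natDegree_derivative_lt hdeg
    rw [h3] at hlt
    apply Nat.find_min hex hlt
    refine ⟨derivative P, ?_, h0, ?_⟩
    · rw [← derivative_map]
      exact hder
    · rw [← derivative_map]

theorem eval_C_ne (F : Subfield ℝ) (P : (↥F)[X][Y]) (hP : P ≠ 0) (s : ℝ)
    (hs : ¬ IsAlgebraic F s) : (toR F P).eval (C s) ≠ 0 := by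
  intro h0
  apply hP
  have hcoef : ∀ j, ∑ i ∈ Finset.range ((toR F P).natDegree + 1),
      ((toR F P).coeff i).coeff j * s ^ i = 0 := by
    intro j
    have := congrArg (fun q => coeff q j) h0
    simp only [coeff_zero] at this
    rw [eval_eq_sum_range, finset_sum_coeff] at this
    rw [← this]
    refine Finset.sum_congr rfl fun i _ => ?_
    rw [← C_pow, coeff_mul_C]
  have hQ : ∀ i j, ((toR F P).coeff i).coeff j = algebraMap F ℝ ((P.coeff i).coeff j) := by
    intro i j
    simp [toR, coeff_map]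
  ext i j
  by_cases hi : i < (toR F P).natDegree + 1
  · have hq : (∑ i ∈ Finset.range ((toR F P).natDegree + 1),
        monomial i ((P.coeff i).coeff j) : (↥F)[X]) = 0 := by
      by_contra hne
      apply hs
      refine ⟨_, hne, ?_⟩
      rw [map_sum, ← hcoef j]
      refine Finset.sum_congr rfl fun i _ => ?_
      rw [aeval_monomial, hQ]
    have := congrArg (fun q => coeff q i) hq
    simp only [finset_sum_coeff, coeff_monomial, coeff_zero] at this
    rw [Finset.sum_ite_eq_of_mem' _ _ _ (Finset.mem_range.2 hi)] at this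
    rw [this]
    simp
  · have h1 : (toR F P).coeff i = 0 := coeff_eq_zero_of_natDegree_lt (by omega)
    have h2 : algebraMap F ℝ ((P.coeff i).coeff j) = 0 := by
      rw [← hQ, h1, coeff_zero]
    have h3 : (P.coeff i).coeff j = 0 := (FaithfulSMul.algebraMap_injective F ℝ) (by rw [h2, map_zero])
    rw [h3]
    simp

theorem alg_of_poly {G : Subfield ℝ} (g : ℝ[X]) (hg : g ≠ 0) (hc : ∀ i, g.coeff i ∈ G) (x : ℝ)
    (h0 : g.eval x = 0) : IsAlgebraic G x := by
  have hl : g ∈ Polynomial.lifts (algebraMap G ℝ) := by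
    rw [Polynomial.lifts_iff_coeff_lifts]
    intro n
    exact ⟨⟨g.coeff n, hc n⟩, rfl⟩
  obtain ⟨q, hq⟩ := (Polynomial.mem_lifts g).1 hl
  refine ⟨q, ?_, ?_⟩
  · rintro rfl
    rw [Polynomial.map_zero] at hq
    exact hg hq.symm
  · rw [← eval_map_algebraMap, hq, h0]

theorem exchange {F : Subfield ℝ} {x t : ℝ} (h : IsAlgebraic (ext F x) t)
    (ht : ¬ IsAlgebraic F t) : IsAlgebraic (ext F t) x := by
  obtain ⟨P, h1, h2⟩ := exists_biv F x t h
  have hP : P ≠ 0 := by
    rintro rfl
    exact h1 (Polynomial.map_zero _)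
  have hne := eval_C_ne F P hP t ht
  refine alg_of_poly _ hne ?_ x ?_
  · intro j
    rw [eval_eq_sum_range, finset_sum_coeff]
    apply Subfield.sum_mem
    intro i _
    rw [← C_pow, coeff_mul_C]
    apply Subfield.mul_mem
    · have : ((toR F P).coeff i).coeff j = algebraMap F ℝ ((P.coeff i).coeff j) := by
        simp [toR, coeff_map]
      rw [this]
      exact le_ext F t ((P.coeff i).coeff j).2
    · exact Subfield.pow_mem _ (self_mem_ext F t) i
  · have := eval_eq F P x t
    rw [evalEval] at this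
    rw [this]
    exact h2

theorem conj_aux {G E : Subfield ℝ} (hGE : G ≤ E) {a b : ℝ} (ha : a ∈ E) (hb : b ∈ E)
    (p : (↥G)[X]) : ∃ u ∈ E, ∃ v ∈ E, aeval (a + b * √2) p = u + v * √2 ∧
      aeval (a - b * √2) p = u - v * √2 := by
  have h2 : √2 * √2 = (2 : ℝ) := Real.mul_self_sqrt (by norm_num)
  induction p using Polynomial.induction_on with
  | C c =>
    refine ⟨c, hGE c.2, 0, E.zero_mem, ?_, ?_⟩
    · rw [aeval_C, zero_mul, add_zero]
      rfl
    · rw [aeval_C, zero_mul, sub_zero]
      rfl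
  | add p q hp hq =>
    obtain ⟨u, hu, v, hv, e1, e2⟩ := hp
    obtain ⟨u', hu', v', hv', e1', e2'⟩ := hq
    refine ⟨u + u', E.add_mem hu hu', v + v', E.add_mem hv hv', ?_, ?_⟩
    · rw [map_add, e1, e1']; ring
    · rw [map_add, e2, e2']; ring
  | monomial n c ih =>
    obtain ⟨u, hu, v, hv, e1, e2⟩ := ih
    refine ⟨u * a + 2 * v * b, ?_, u * b + v * a, ?_, ?_, ?_⟩
    · exact E.add_mem (E.mul_mem hu ha) (E.mul_mem (E.mul_mem (by
        have := E.add_mem E.one_mem E.one_mem
        rwa [one_add_one_eq_two] at this) hv) hb)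
    · exact E.add_mem (E.mul_mem hu hb) (E.mul_mem hv ha)
    · rw [pow_succ, ← mul_assoc, map_mul, e1, aeval_X]
      linear_combination (v * b) * h2
    · rw [pow_succ, ← mul_assoc, map_mul, e2, aeval_X]
      linear_combination (v * b) * h2

theorem conj_root {G E : Subfield ℝ} (hGE : G ≤ E) (h2E : √2 ∉ E) {a b : ℝ} (ha : a ∈ E)
    (hb : b ∈ E) (h : IsAlgebraic G (a + b * √2)) : IsAlgebraic G (a - b * √2) := by
  obtain ⟨p, hp, h0⟩ := h
  obtain ⟨u, hu, v, hv, e1, e2⟩ := conj_aux hGE ha hb p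
  refine ⟨p, hp, ?_⟩
  rw [h0] at e1
  have hv0 : v = 0 := by
    by_contra hv0
    apply h2E
    have : √2 = -u / v := by
      field_simp
      linarith
    rw [this]
    exact E.div_mem (E.neg_mem hu) hv
  rw [e2, hv0]
  rw [hv0] at e1
  linarith

theorem sqrt_alg (F : Subfield ℝ) : IsAlgebraic F (√2) := by
  refine ⟨X ^ 2 - C 2, ?_, ?_⟩
  · exact X_pow_sub_C_ne_zero (by norm_num) _
  · rw [map_sub, map_pow, aeval_X, aeval_C, map_ofNat, Real.sq_sqrt (by norm_num), sub_self]

/-- `√2` is not in a simple transcendental extension. -/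
theorem sqrt_not_mem_ext {F : Subfield ℝ} (h2 : √2 ∉ F) {x : ℝ} (hx : ¬ IsAlgebraic F x) :
    √2 ∉ ext F x := by
  intro hmem
  obtain ⟨r, s, hrs⟩ := (mem_ext_iff F x _).1 hmem
  have hsq : √2 * √2 = (2 : ℝ) := Real.mul_self_sqrt (by norm_num)
  have hpos : (0 : ℝ) < √2 := Real.sqrt_pos.2 (by norm_num)
  have hs0 : aeval x s ≠ 0 := by
    intro h0
    rw [h0, div_zero] at hrs
    linarith
  have hs : s ≠ 0 := by
    rintro rfl
    simp at hs0
  have hpoly : r ^ 2 - C 2 * s ^ 2 = 0 := by
    by_contra hne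
    apply hx
    refine ⟨_, hne, ?_⟩
    have h1 : aeval x r = √2 * aeval x s := by
      rw [hrs]
      field_simp
    rw [map_sub, map_mul, map_pow, map_pow, h1, aeval_C]
    have h3 : (algebraMap F ℝ) 2 = 2 := map_ofNat _ 2
    rw [h3]
    linear_combination (aeval x s) ^ 2 * hsq
  obtain ⟨n, hn⟩ : ∃ n : ↥F, s.eval n ≠ 0 := by
    by_contra hcon
    push Not at hcon
    have : Infinite F := inferInstance
    exact hs (Polynomial.funext fun n => by rw [hcon n, eval_zero])
  have he := congrArg (eval n) hpoly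
  rw [eval_sub, eval_mul, eval_pow, eval_pow, eval_C, eval_zero] at he
  have he' : (((r.eval n / s.eval n : ↥F) : ℝ)) ^ 2 = 2 := by
    have : (r.eval n / s.eval n) ^ 2 = (2 : ↥F) := by
      field_simp
      linear_combination he
    have := congrArg (fun z : ↥F => (z : ℝ)) this
    push_cast at this
    push_cast
    exact this
  have hcase : ((r.eval n / s.eval n : ↥F) : ℝ) = √2 ∨ ((r.eval n / s.eval n : ↥F) : ℝ) = -√2 := by
    have : (((r.eval n / s.eval n : ↥F) : ℝ) - √2) * (((r.eval n / s.eval n : ↥F) : ℝ) + √2) = 0 := by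
      linear_combination he' - hsq
    rcases mul_eq_zero.1 this with h | h
    · left; linarith
    · right; linarith
  rcases hcase with h | h
  · exact h2 (h ▸ (r.eval n / s.eval n : ↥F).2)
  · apply h2
    have : √2 = -((r.eval n / s.eval n : ↥F) : ℝ) := by rw [h, neg_neg]
    rw [this]
    exact F.neg_mem (r.eval n / s.eval n : ↥F).2

end Pool.Agent.R32.MaxSub
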