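import Mathlib

/-! An analytic set of reals of positive outer measure contains a compact set of positive measure. -/

open Set MeasureTheory Topology Filter

namespace Pool.Agent.R32.MaxSub

theorem exists_subset_of_compact_box (b : ℕ → ℕ) (V : Set (ℕ → ℕ)) (hV : IsOpen V)
    (hL : {x : ℕ → ℕ | ∀ i, x i ≤ b i} ⊆ V) : ∃ k, {x : ℕ → ℕ | ∀ i < k, x i ≤ b i} ⊆ V := by
  by_contra hcon
  push Not at hcon
  have h1 : ∀ k, ∃ y : ℕ → ℕ, (∀ i < k, y i ≤ b i) ∧ y ∉ V := by
    intro k
    obtain ⟨y, hy1, hy2⟩ := not_subset.1 (hcon k)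
    exact ⟨y, hy1, hy2⟩
  choose y hy1 hy2 using h1
  have hcomp : IsCompact {x : ℕ → ℕ | ∀ i, x i ≤ b i} := by
    have : {x : ℕ → ℕ | ∀ i, x i ≤ b i} = Set.pi univ fun i => Iic (b i) := by
      ext x
      simp only [mem_ofPred_eq, Set.mem_pi, mem_univ, true_implies, mem_Iic]
    rw [this]
    exact isCompact_univ_pi fun i => (finite_Iic (b i)).isCompact
  obtain ⟨x, hx, φ, hφ, hlim⟩ := hcomp.tendsto_subseq (x := fun k i => min (y k i) (b i))
    (fun k i => min_le_right _ _)
  have hlim2 : Tendsto (fun j => y (φ j)) atTop (𝓝 x) := by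
    rw [tendsto_pi_nhds] at hlim ⊢
    intro i
    refine (hlim i).congr' ?_
    filter_upwards [eventually_ge_atTop (i + 1)] with j hj
    have h2 : i < φ j := lt_of_lt_of_le (Nat.lt_of_succ_le hj) (hφ.le_apply)
    exact min_eq_left (hy1 _ i h2)
  have h3 := hlim2.eventually (hV.mem_nhds (hL hx))
  obtain ⟨j, hj⟩ := h3.exists
  exact hy2 _ hj

theorem exists_compact_pos {T : Set ℝ} (hT : AnalyticSet T) (h : volume T ≠ 0) :
    ∃ C ⊆ T, IsCompact C ∧ volume C ≠ 0 := by
  rw [AnalyticSet] at hT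
  rcases hT with rfl | ⟨f, hf, rfl⟩
  · simp at h
  obtain ⟨ε, hε0, hε⟩ := exists_between (pos_iff_ne_zero.2 h)
  have step : ∀ (k : ℕ) (P : Set (ℕ → ℕ)), ε < volume (f '' P) →
      ∃ n : ℕ, ε < volume (f '' (P ∩ {x | x k ≤ n})) := by
    intro k P hP
    have h1 : f '' P = ⋃ n : ℕ, f '' (P ∩ {x | x k ≤ n}) := by
      rw [← image_iUnion, ← inter_iUnion]
      congr 1
      symm
      apply inter_eq_left.2
      intro x _
      exact mem_iUnion.2 ⟨x k, le_refl (x k)⟩
    have h2 : Monotone fun n : ℕ => f '' (P ∩ {x | x k ≤ n}) := by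
      intro m n hmn
      apply image_mono
      rintro x ⟨hx1, hx2⟩
      exact ⟨hx1, le_trans hx2 hmn⟩
    rw [h1, h2.measure_iUnion] at hP
    exact lt_iSup_iff.1 hP
  choose! N hN using step
  let P : ℕ → Set (ℕ → ℕ) := fun k => Nat.rec univ (fun k P => P ∩ {x | x k ≤ N k P}) k
  have hP0 : P 0 = univ := rfl
  have hPs : ∀ k, P (k + 1) = P k ∩ {x | x k ≤ N k (P k)} := fun k => rfl
  let b : ℕ → ℕ := fun k => N k (P k)
  have hP : ∀ k, P k = {x : ℕ → ℕ | ∀ i < k, x i ≤ b i} := by
    intro k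
    induction k with
    | zero =>
      rw [hP0]
      ext x
      simp
    | succ k ih =>
      rw [hPs]
      ext x
      constructor
      · rintro ⟨hx1, hx2⟩ i hi
        rw [ih] at hx1
        rcases Nat.lt_succ_iff_lt_or_eq.1 hi with h | rfl
        · exact hx1 i h
        · exact hx2
      · intro hx
        refine ⟨?_, hx k (Nat.lt_succ_self k)⟩
        rw [ih]
        exact fun i hi => hx i (Nat.lt_succ_of_lt hi)
  have hPε : ∀ k, ε < volume (f '' P k) := by
    intro k
    induction k with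
    | zero =>
      rw [hP0, image_univ]
      exact hε
    | succ k ih =>
      rw [hPs]
      exact hN k (P k) ih
  set L : Set (ℕ → ℕ) := {x : ℕ → ℕ | ∀ i, x i ≤ b i} with hLdef
  have hcomp : IsCompact L := by
    have : L = Set.pi univ fun i => Iic (b i) := by
      ext x
      simp only [hLdef, mem_ofPred_eq, Set.mem_pi, mem_univ, true_implies, mem_Iic]
    rw [this]
    exact isCompact_univ_pi fun i => (finite_Iic (b i)).isCompact
  refine ⟨f '' L, image_subset_range _ _, hcomp.image hf, ?_⟩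
  intro h0
  obtain ⟨U, hU1, hU2, hU3⟩ := Set.exists_isOpen_lt_of_lt (μ := volume) (f '' L) ε
    (by rw [h0]; exact hε0)
  obtain ⟨k, hk⟩ := exists_subset_of_compact_box b (f ⁻¹' U) (hU2.preimage hf)
    (fun x hx => hU1 (mem_image_of_mem f hx))
  have h4 : f '' P k ⊆ U := by
    rw [hP k]
    exact image_subset_iff.2 hk
  exact absurd ((hPε k).trans_le (measure_mono h4)) (not_lt.2 hU3.le)

end Pool.Agent.R32.MaxSub
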