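import Pool.Agent.R32.MaxSub.Fsigma2
import Pool.Agent.R32.MaxSub.Ana1

/-! The real field is not algebraic over a proper analytic subfield. -/

open Set Polynomial Topology MeasureTheory Filter
open scoped Pointwise

namespace Pool.Agent.R32.MaxSub

/-- the set of tuples with entries in `K` -/
theorem analytic_graph {K : Set ℝ} (hK : AnalyticSet K) (d : ℕ) (E : Set (ℝ × (Fin d → ℝ)))
    (hE : MeasurableSet E) : AnalyticSet (E ∩ {z | ∀ i, z.2 i ∈ K}) := by
  have h1 : E ∩ {z : ℝ × (Fin d → ℝ) | ∀ i, z.2 i ∈ K} =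
      ⋂ o : Option (Fin d), (Option.elim o E fun i => (fun z : ℝ × (Fin d → ℝ) => z.2 i) ⁻¹' K) := by
    ext z
    simp only [mem_inter_iff, mem_ofPred_eq, mem_iInter, Option.forall, Option.elim, mem_preimage]
  rw [h1]
  apply AnalyticSet.iInter
  rintro (_ | i)
  · exact hE.analyticSet
  · exact hK.preimage ((continuous_apply i).comp continuous_snd)

theorem TB_analytic {K : Set ℝ} (hK : AnalyticSet K) (d : ℕ) :
    AnalyticSet {t : ℝ | ∃ c : Fin d → ℝ, (∀ i, c i ∈ K) ∧ t ^ d + ∑ i, c i * t ^ (i : ℕ) = 0} := by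
  have hcl : IsClosed {z : ℝ × (Fin d → ℝ) | z.1 ^ d + ∑ i, z.2 i * z.1 ^ (i : ℕ) = 0} := by
    apply isClosed_eq _ continuous_const
    exact (continuous_fst.pow d).add (continuous_finsetSum _ fun i _ =>
      ((continuous_apply i).comp continuous_snd).mul (continuous_fst.pow _))
  have := (analytic_graph hK d _ hcl.measurableSet).image_of_continuous continuous_fst
  convert this using 1
  ext t
  simp only [mem_ofPred_eq, mem_image, mem_inter_iff, Prod.exists, exists_and_right,
    exists_eq_right]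
  constructor
  · rintro ⟨c, h1, h2⟩
    exact ⟨c, h2, h1⟩
  · rintro ⟨c, h2, h1⟩
    exact ⟨c, h1, h2⟩

theorem image_Phi_analytic {K : Set ℝ} (hK : AnalyticSet K) (m : ℕ) (t : ℝ)
    (B : Set (Fin m → ℝ)) (hB : MeasurableSet B) :
    AnalyticSet {u : ℝ | ∃ c ∈ B, (∀ i, c i ∈ K) ∧ ∑ i, c i * t ^ (i : ℕ) = u} := by
  have h1 := analytic_graph hK m (Prod.snd ⁻¹' B) (measurable_snd hB)
  have hc : Continuous fun z : ℝ × (Fin m → ℝ) => ∑ i, z.2 i * t ^ (i : ℕ) :=
    continuous_finsetSum _ fun i _ =>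
      ((continuous_apply i).comp continuous_snd).mul continuous_const
  have := h1.image_of_continuous hc
  convert this using 1
  ext u
  simp only [mem_ofPred_eq, mem_image, mem_inter_iff, mem_preimage, Prod.exists]
  constructor
  · rintro ⟨c, h1, h2, h3⟩
    exact ⟨0, c, ⟨h1, h2⟩, h3⟩
  · rintro ⟨_, c, ⟨h1, h2⟩, h3⟩
    exact ⟨c, h1, h2, h3⟩

theorem bounded_degree {K : Subfield ℝ} (hK : AnalyticSet (K : Set ℝ))
    (halg : ∀ t : ℝ, IsAlgebraic K t) : ∃ d, ∀ t : ℝ, (minpoly K t).natDegree ≤ d := by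
  classical
  have hint : ∀ t : ℝ, IsIntegral K t := fun t => (halg t).isIntegral
  set T : ℕ → Set ℝ := fun d =>
    {t : ℝ | ∃ c : Fin d → ℝ, (∀ i, c i ∈ (K : Set ℝ)) ∧ t ^ d + ∑ i, c i * t ^ (i : ℕ) = 0} with hT
  have hU : (⋃ d, T d) = univ := by
    rw [eq_univ_iff_forall]
    intro t
    set m := minpoly K t with hm
    refine mem_iUnion.2 ⟨m.natDegree, fun i => (m.coeff i : ℝ), fun i => (m.coeff i).2, ?_⟩
    have hmm : m.Monic := minpoly.monic (hint t)
    have h1 : aeval t m = 0 := minpoly.aeval K t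
    rw [hmm.as_sum] at h1
    simp only [map_add, map_pow, aeval_X, map_sum, map_mul, aeval_C] at h1
    rw [← Fin.sum_univ_eq_sum_range (fun i => (algebraMap K ℝ) (m.coeff i) * t ^ i)] at h1
    exact h1
  obtain ⟨d, hd⟩ : ∃ d, volume (T d) ≠ 0 := by
    by_contra hcon
    push Not at hcon
    have h1 : volume (⋃ d, T d) = 0 := measure_iUnion_null hcon
    rw [hU] at h1
    simp at h1
  have hdeg : ∀ t ∈ T d, (minpoly K t).natDegree ≤ d := by
    rintro t ⟨c, hc, h0⟩
    set p : (↥K)[X] := X ^ d + ∑ i : Fin d, C (⟨c i, hc i⟩ : ↥K) * X ^ (i : ℕ) with hp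
    have hmon : p.Monic := monic_X_pow_add (degree_sum_fin_lt _)
    have hdeg : p.natDegree = d := by
      apply natDegree_eq_of_degree_eq_some
      rw [hp, degree_add_eq_left_of_degree_lt, degree_X_pow]
      rw [degree_X_pow]
      exact degree_sum_fin_lt (fun i => (⟨c i, hc i⟩ : ↥K))
    have hroot : aeval t p = 0 := by
      rw [← h0, hp]
      simp only [map_add, map_pow, aeval_X, map_sum, map_mul, aeval_C]
      rfl
    have h1 := minpoly.min K t hmon hroot
    have h2 := natDegree_le_natDegree h1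
    rwa [hdeg] at h2
  obtain ⟨C, hCT, hC, hC0⟩ := exists_compact_pos (TB_analytic hK d) hd
  have hst : C - C ∈ 𝓝 (0 : ℝ) :=
    Measure.sub_mem_nhds_zero_of_addHaar_pos volume C hC.measurableSet (pos_iff_ne_zero.2 hC0)
  refine ⟨d * d, fun t => ?_⟩
  have hlim : Tendsto (fun n : ℕ => t / ((n + 1 : ℕ) : ℝ)) atTop (𝓝 0) :=
    (tendsto_const_div_atTop_nhds_zero_nat t).comp (tendsto_add_atTop_nat 1)
  obtain ⟨n, hn⟩ := (hlim.eventually hst).exists
  obtain ⟨u, hu, v, hv, huv⟩ := hn
  have hu' := hdeg u (hCT hu)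
  have hv' := hdeg v (hCT hv)
  let E1 := IntermediateField.adjoin K {u}
  let E2 := IntermediateField.adjoin K {v}
  have hf1 : FiniteDimensional K E1 := IntermediateField.adjoin.finiteDimensional (hint u)
  have hf2 : FiniteDimensional K E2 := IntermediateField.adjoin.finiteDimensional (hint v)
  have h1 : Module.finrank K ↥(E1 ⊔ E2) ≤ Module.finrank K E1 * Module.finrank K E2 :=
    IntermediateField.finrank_sup_le E1 E2
  have h2 : Module.finrank K E1 ≤ d := by
    rw [IntermediateField.adjoin.finrank (hint u)]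
    exact hu'
  have h3 : Module.finrank K E2 ≤ d := by
    rw [IntermediateField.adjoin.finrank (hint v)]
    exact hv'
  have hfs : FiniteDimensional K ↥(E1 ⊔ E2) := IntermediateField.finiteDimensional_sup E1 E2
  have hmem : t ∈ E1 ⊔ E2 := by
    have hu1 : u ∈ E1 ⊔ E2 := (le_sup_left : E1 ≤ E1 ⊔ E2)
      (IntermediateField.mem_adjoin_simple_self K u)
    have hv1 : v ∈ E1 ⊔ E2 := (le_sup_right : E2 ≤ E1 ⊔ E2)
      (IntermediateField.mem_adjoin_simple_self K v)
    have h4 : t = ((n + 1 : ℕ) : ℝ) * (u - v) := by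
      have h5 : u - v = t / ((n + 1 : ℕ) : ℝ) := huv
      rw [h5]
      have h7 : ((n + 1 : ℕ) : ℝ) ≠ 0 := Nat.cast_ne_zero.2 (Nat.succ_ne_zero n)
      field_simp
    rw [h4]
    exact mul_mem (natCast_mem _ _) (sub_mem hu1 hv1)
  have hle : IntermediateField.adjoin K {t} ≤ E1 ⊔ E2 := by
    rw [IntermediateField.adjoin_simple_le_iff]
    exact hmem
  have h6 : Module.finrank K (IntermediateField.adjoin K {t}) ≤ Module.finrank K ↥(E1 ⊔ E2) :=
    LinearMap.finrank_le_finrank_of_injective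
      (f := (IntermediateField.inclusion hle).toLinearMap)
      (IntermediateField.inclusion hle).injective
  rw [IntermediateField.adjoin.finrank (hint t)] at h6
  exact h6.trans (h1.trans (Nat.mul_le_mul h2 h3))

end Pool.Agent.R32.MaxSub
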