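import Pool.Agent.R32.MaxSub.Ana2

/-! The real field is not algebraic over a proper analytic subfield. -/

open Set Polynomial Topology MeasureTheory Filter

namespace Pool.Agent.R32.MaxSub

/-- **Theorem.** If `K` is a proper subfield of `ℝ` which is an analytic set, then some real is
transcendental over `K`. -/
theorem exists_transcendental_of_analytic {K : Subfield ℝ} (hK : AnalyticSet (K : Set ℝ))
    (hne : K ≠ ⊤) : ∃ t : ℝ, ¬ IsAlgebraic K t := by
  classical
  by_contra hcon
  push Not at hcon
  obtain ⟨d, hd⟩ := bounded_degree hK hcon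
  have hint : ∀ t : ℝ, IsIntegral K t := fun t => (hcon t).isIntegral
  obtain ⟨t, ht⟩ := exists_generator hcon d hd
  set m := (minpoly K t).natDegree with hm
  have hm0 : 0 < m := minpoly.natDegree_pos (hint t)
  choose p hp1 hp2 using ht
  have huniq : ∀ q r : (↥K)[X], q.natDegree < m → r.natDegree < m → aeval t q = aeval t r →
      q = r := by
    intro q r hq hr hqr
    by_contra hne
    have h0 : q - r ≠ 0 := sub_ne_zero.2 hne
    have h1 : aeval t (q - r) = 0 := by rw [map_sub, hqr, sub_self]
    have h2 := natDegree_le_natDegree (minpoly.degree_le_of_ne_zero K t h0 h1)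
    have h3 := natDegree_sub_le q r
    omega
  have hadd : ∀ u v, p (u + v) = p u + p v := by
    intro u v
    apply huniq _ _ (hp1 _)
    · refine lt_of_le_of_lt (natDegree_add_le _ _) (max_lt (hp1 _) (hp1 _))
    · rw [map_add, hp2, hp2, hp2]
  have hone : p 1 = 1 := by
    apply huniq _ _ (hp1 _)
    · rw [natDegree_one]
      exact hm0
    · rw [hp2, map_one]
  -- the coordinate map
  let g : ℝ →+ ℝ := AddMonoidHom.mk' (fun u => ((p u).coeff 0 : ℝ)) (by
    intro u v
    rw [hadd, coeff_add]
    push_cast
    rfl)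
  have hg : ∀ u, g u = ((p u).coeff 0 : ℝ) := fun u => rfl
  have hpre : ∀ B : Set ℝ, g ⁻¹' B = {u : ℝ | ∃ c ∈ ((fun c : Fin m → ℝ => c ⟨0, hm0⟩) ⁻¹' B),
      (∀ i, c i ∈ (K : Set ℝ)) ∧ ∑ i, c i * t ^ (i : ℕ) = u} := by
    intro B
    ext u
    simp only [mem_preimage, mem_ofPred_eq]
    constructor
    · intro hu
      refine ⟨fun i => ((p u).coeff i : ℝ), hu, fun i => ((p u).coeff i).2, ?_⟩
      have h1 := hp2 u
      rw [aeval_eq_sum_range' (hp1 u),
        ← Fin.sum_univ_eq_sum_range (fun i => (p u).coeff i • t ^ i)] at h1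
      exact h1
    · rintro ⟨c, hcB, hcK, hu⟩
      set q : (↥K)[X] := ∑ i : Fin m, C (⟨c i, hcK i⟩ : ↥K) * X ^ (i : ℕ) with hq
      have hqdeg : q.natDegree < m := by
        by_cases hq0 : q = 0
        · rw [hq0, natDegree_zero]
          exact hm0
        · rw [natDegree_lt_iff_degree_lt hq0]
          exact degree_sum_fin_lt _
      have hqt : aeval t q = u := by
        rw [← hu, hq]
        simp only [map_pow, aeval_X, map_sum, map_mul, aeval_C]
        rfl
      have hpu : p u = q := huniq _ _ (hp1 _) hqdeg (by rw [hp2, hqt])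
      have hq0 : (q.coeff 0 : ℝ) = c ⟨0, hm0⟩ := by
        rw [hq, finsetSum_coeff]
        simp only [coeff_C_mul_X_pow]
        rw [Finset.sum_eq_single ⟨0, hm0⟩]
        · simp
        · intro b _ hb
          rw [if_neg]
          intro h
          exact hb (Fin.ext h.symm)
        · intro h
          exact absurd (Finset.mem_univ _) h
      rw [hg, hpu, hq0]
      exact hcB
  have hcoord : Measurable fun c : Fin m → ℝ => c ⟨0, hm0⟩ := measurable_pi_apply _
  have hgm : Measurable g := by
    intro B hB
    apply AnalyticSet.measurableSet_of_compl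
    · rw [hpre]
      exact image_Phi_analytic hK m t _ (hcoord hB)
    · rw [← preimage_compl, hpre]
      exact image_Phi_analytic hK m t _ (hcoord hB.compl)
  have hgc : Continuous g := MeasureTheory.Measure.AddMonoidHom.continuous_of_measurable g hgm
  apply hne
  rw [eq_top_iff]
  intro x _
  have h1 : g (x • (1 : ℝ)) = x • g 1 := map_real_smul g hgc x 1
  rw [smul_eq_mul, mul_one, hg, hg, hone, coeff_one_zero, smul_eq_mul] at h1
  have h2 : ((p x).coeff 0 : ℝ) = x := by
    rw [h1]
    simp
  rw [← h2]
  exact ((p x).coeff 0).2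

end Pool.Agent.R32.MaxSub
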