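import Pool.Agent.R32.MaxSub.Alg2

/-! If `F` is a maximal subfield avoiding `y` then `ℝ` is algebraic over `F`. -/

open Set Polynomial

namespace Pool.Agent.R32.MaxSub

/-- Elements of a simple transcendental extension which are algebraic over the base field lie in the
base field. -/
theorem mem_of_mem_ext {F : Subfield ℝ} {x α : ℝ} (hx : ¬ IsAlgebraic F x) (hα : α ∈ ext F x)
    (halg : IsAlgebraic F α) : α ∈ F := by
  obtain ⟨r, s, hrs⟩ := (mem_ext_iff F x α).1 hα
  have hint : IsIntegral F α := halg.isIntegral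
  by_cases hs0 : aeval x s = 0
  · rw [hrs, hs0, div_zero]
    exact F.zero_mem
  have hs : s ≠ 0 := by
    rintro rfl
    simp at hs0
  set m := minpoly F α with hm
  set d := m.natDegree with hd
  -- homogenised equation
  have hpoly : ∑ i ∈ Finset.range (d + 1), C (m.coeff i) * r ^ i * s ^ (d - i) = 0 := by
    by_contra hne
    apply hx
    refine ⟨_, hne, ?_⟩
    have h1 : aeval x r = α * aeval x s := by
      rw [hrs]
      field_simp
    have h2 : aeval x (∑ i ∈ Finset.range (d + 1), C (m.coeff i) * r ^ i * s ^ (d - i)) =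
        (aeval x s) ^ d * aeval α m := by
      have h0 : aeval α m = ∑ i ∈ Finset.range (d + 1), m.coeff i • α ^ i := aeval_eq_sum_range α
      rw [map_sum, h0, Finset.mul_sum]
      refine Finset.sum_congr rfl fun i hi => ?_
      have hi' : i ≤ d := by
        have := Finset.mem_range.1 hi
        omega
      rw [map_mul, map_mul, map_pow, map_pow, h1, aeval_C, Algebra.smul_def, mul_pow]
      have h3 : aeval x s ^ d = aeval x s ^ i * aeval x s ^ (d - i) := by
        rw [← pow_add]
        congr 1
        omega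
      rw [h3]
      ring
    rw [h2, hm, minpoly.aeval, mul_zero]
  obtain ⟨n, hn⟩ : ∃ n : ↥F, s.eval n ≠ 0 := by
    by_contra hcon
    push Not at hcon
    exact hs (Polynomial.funext fun n => by rw [hcon n, eval_zero])
  have hroot : m.IsRoot (r.eval n / s.eval n) := by
    have he := congrArg (eval n) hpoly
    rw [eval_finsetSum, eval_zero] at he
    rw [IsRoot, eval_eq_sum_range]
    have h4 : s.eval n ^ d * ∑ i ∈ Finset.range (m.natDegree + 1),
        m.coeff i * (r.eval n / s.eval n) ^ i = 0 := by
      rw [← he, Finset.mul_sum]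
      refine Finset.sum_congr rfl fun i hi => ?_
      have hi' : i ≤ d := by
        have := Finset.mem_range.1 hi
        omega
      rw [eval_mul, eval_mul, eval_pow, eval_pow, eval_C, div_pow]
      have h3 : s.eval n ^ d = s.eval n ^ i * s.eval n ^ (d - i) := by
        rw [← pow_add]
        congr 1
        omega
      rw [h3]
      field_simp
    rcases mul_eq_zero.1 h4 with h | h
    · exact absurd h (pow_ne_zero _ hn)
    · exact h
  have hdeg : m.degree = 1 := by
    apply Polynomial.degree_eq_one_of_irreducible_of_root (minpoly.irreducible hint) hroot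
  obtain ⟨a, ha⟩ := (minpoly.degree_eq_one_iff).1 hdeg
  rw [← ha]
  exact a.2

theorem not_mem_ext_sq {F : Subfield ℝ} {y : ℝ} (hy : ¬ IsAlgebraic F y) : y ∉ ext F (y ^ 2) := by
  intro hmem
  obtain ⟨r, s, hrs⟩ := (mem_ext_iff F (y ^ 2) y).1 hmem
  have hy0 : y ≠ 0 := by
    rintro rfl
    exact hy isAlgebraic_zero
  have hs0 : aeval (y ^ 2) s ≠ 0 := by
    intro h0
    rw [h0, div_zero] at hrs
    exact hy0 hrs
  have hr0 : aeval (y ^ 2) r ≠ 0 := by
    intro h0
    rw [h0, zero_div] at hrs
    exact hy0 hrs
  have hs : s ≠ 0 := by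
    rintro rfl
    simp at hs0
  have hr : r ≠ 0 := by
    rintro rfl
    simp at hr0
  have hpoly : X * expand F 2 s - expand F 2 r = 0 := by
    by_contra hne
    apply hy
    refine ⟨_, hne, ?_⟩
    rw [map_sub, map_mul, aeval_X, expand_aeval, expand_aeval]
    have h1 := (eq_div_iff hs0).1 hrs
    rw [h1, sub_self]
  have h5 : X * expand F 2 s = expand F 2 r := sub_eq_zero.1 hpoly
  have h6 := congrArg natDegree h5
  rw [natDegree_mul X_ne_zero ((expand_ne_zero (by norm_num)).2 hs), natDegree_X, natDegree_expand,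
    natDegree_expand] at h6
  omega

theorem algebraic_of_maximal {F : Subfield ℝ} {y : ℝ} (hy : y ∉ F)
    (hmax : ∀ F' : Subfield ℝ, F < F' → y ∈ F') (t : ℝ) : IsAlgebraic F t := by
  by_contra ht
  have htF : t ∉ F := fun h => ht ((mem_Acl _ _).1 (le_Acl _ h))
  by_cases hyalg : IsAlgebraic F y
  · apply hy
    apply mem_of_mem_ext ht _ hyalg
    apply hmax
    exact lt_of_le_of_ne (le_ext F t) fun h => htF (h ▸ self_mem_ext F t)
  · have hy2 : ¬ IsAlgebraic F (y ^ 2) := fun h => hyalg (by
      obtain ⟨p, hp, h0⟩ := h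
      refine ⟨expand F 2 p, (expand_ne_zero (by norm_num)).2 hp, ?_⟩
      rw [expand_aeval, h0])
    apply not_mem_ext_sq hyalg
    apply hmax
    apply lt_of_le_of_ne (le_ext F _)
    intro h
    apply hy2
    exact (mem_Acl _ _).1 (le_Acl _ (h ▸ self_mem_ext F (y ^ 2)))

end Pool.Agent.R32.MaxSub
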