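import Pool.Agent.R32.MaxSub.Fsigma1

/-! Bounded degree implies generated by one element. -/

open Set Polynomial

namespace Pool.Agent.R32.MaxSub

theorem exists_generator {K : Subfield ℝ} (halg : ∀ t : ℝ, IsAlgebraic K t) (d : ℕ)
    (hd : ∀ t : ℝ, (minpoly K t).natDegree ≤ d) : ∃ t : ℝ, ∀ u : ℝ, ∃ p : (↥K)[X],
      p.natDegree < (minpoly K t).natDegree ∧ aeval t p = u := by
  classical
  have hAlg : Algebra.IsAlgebraic K ℝ := ⟨halg⟩
  have : Infinite K := inferInstance
  -- an element of maximal degree
  obtain ⟨t, ht⟩ : ∃ t : ℝ, ∀ u : ℝ, (minpoly K u).natDegree ≤ (minpoly K t).natDegree := by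
    have hbdd : BddAbove (range fun t : ℝ => (minpoly K t).natDegree) := by
      refine ⟨d, ?_⟩
      rintro _ ⟨t, rfl⟩
      exact hd t
    obtain ⟨t, ht⟩ := Nat.sSup_mem (range_nonempty fun t : ℝ => (minpoly K t).natDegree) hbdd
    refine ⟨t, fun u => ?_⟩
    simp only at ht
    rw [ht]
    exact le_csSup hbdd (mem_range_self u)
  refine ⟨t, fun u => ?_⟩
  obtain ⟨γ, hγ⟩ := Field.primitive_element_inf_aux (F := K) (E := ℝ) t u
  have hint : ∀ z : ℝ, IsIntegral K z := fun z => (halg z).isIntegral
  have hle : IntermediateField.adjoin K {t} ≤ IntermediateField.adjoin K {γ} := by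
    rw [← hγ]
    exact IntermediateField.adjoin.mono K _ _ (by simp)
  have hfin : FiniteDimensional K (IntermediateField.adjoin K {γ}) :=
    IntermediateField.adjoin.finiteDimensional (hint γ)
  have heq : IntermediateField.adjoin K {t} = IntermediateField.adjoin K {γ} := by
    apply IntermediateField.eq_of_le_of_finrank_le hle
    rw [IntermediateField.adjoin.finrank (hint t), IntermediateField.adjoin.finrank (hint γ)]
    exact ht γ
  have hu : u ∈ IntermediateField.adjoin K {t} := by
    rw [heq, ← hγ]
    exact IntermediateField.subset_adjoin K _ (by simp)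
  have hu' : u ∈ (IntermediateField.adjoin K {t}).toSubalgebra := hu
  rw [IntermediateField.adjoin_simple_toSubalgebra_of_isAlgebraic (halg t),
    Algebra.adjoin_singleton_eq_range_aeval] at hu'
  obtain ⟨q, hq⟩ := hu'
  refine ⟨q %ₘ minpoly K t, ?_, ?_⟩
  · apply natDegree_modByMonic_lt _ (minpoly.monic (hint t))
    exact minpoly.ne_one K t
  · have hq' : aeval t q = u := hq
    rw [← hq']
    exact aeval_modByMonic_eq_self_of_root (minpoly.aeval K t)

end Pool.Agent.R32.MaxSub
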