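import Pool.Agent.R32.MaxSub.Step

/-! The transfinite construction. -/

open Set Polynomial Cardinal

namespace Pool.Agent.R32.MaxSub

theorem good_bot : Good ⊥ := by
  refine ⟨fun h => ?_, fun s hs _ => Or.inr hs⟩
  have h1 : (⊥ : Subfield ℝ) ≤ (algebraMap ℚ ℝ).fieldRange := bot_le
  obtain ⟨q, hq⟩ := h1 h
  exact irrational_sqrt_two ⟨q, hq⟩

theorem card_bot : #(⊥ : Subfield ℝ) ≤ ℵ₀ := by
  rw [← Subfield.closure_empty]
  refine (Subfield.cardinalMk_closure_le_max _).trans ?_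
  simp

theorem good_iSup {ι : Type} [Nonempty ι] (G : ι → Subfield ℝ) (hd : Directed (· ≤ ·) G)
    (hG : ∀ i, Good (G i)) : Good (⨆ i, G i) := by
  refine ⟨fun h => ?_, fun s hs h => ?_⟩
  · obtain ⟨i, hi⟩ := (Subfield.mem_iSup_of_directed hd).1 h
    exact (hG i).1 hi
  · obtain ⟨p, hp, h0⟩ := hs
    have hfin : ∀ T : Finset ℕ, ∃ i, ∀ n ∈ T, ((p.coeff n : (⨆ i, G i : Subfield ℝ)) : ℝ) ∈ G i := by
      intro T
      induction T using Finset.induction_on with
      | empty => exact ⟨Classical.arbitrary ι, fun n hn => by simp at hn⟩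
      | insert a T ha ih =>
        obtain ⟨i, hi⟩ := ih
        obtain ⟨j, hj⟩ := (Subfield.mem_iSup_of_directed hd).1 (p.coeff a).2
        obtain ⟨k, hik, hjk⟩ := hd i j
        refine ⟨k, fun n hn => ?_⟩
        rcases Finset.mem_insert.1 hn with rfl | hn
        · exact hjk hj
        · exact hik (hi n hn)
    obtain ⟨i, hi⟩ := hfin p.support
    have halg : IsAlgebraic (G i) s := by
      apply alg_of_poly (p.map (algebraMap _ ℝ))
      · exact (Polynomial.map_ne_zero_iff (FaithfulSMul.algebraMap_injective _ ℝ)).2 hp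
      · intro n
        rw [coeff_map]
        by_cases hn : n ∈ p.support
        · exact hi n hn
        · rw [notMem_support_iff.1 hn, map_zero]
          exact (G i).zero_mem
      · rw [eval_map_algebraMap]
        exact h0
    exact (hG i).2 s halg fun h' => h (ext_mono (le_iSup G i) s h')

theorem card_iSup {ι : Type} [Nonempty ι] (G : ι → Subfield ℝ) (hd : Directed (· ≤ ·) G)
    (κ : Cardinal.{0}) (hκ : ℵ₀ ≤ κ) (hι : #ι ≤ κ) (hG : ∀ i, #(G i) ≤ κ) :
    #(⨆ i, G i : Subfield ℝ) ≤ κ := by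
  have hsurj : Function.Surjective (fun z : Σ i, G i =>
      (⟨z.2.1, (Subfield.mem_iSup_of_directed hd).2 ⟨z.1, z.2.2⟩⟩ : (⨆ i, G i : Subfield ℝ))) := by
    rintro ⟨x, hx⟩
    obtain ⟨i, hi⟩ := (Subfield.mem_iSup_of_directed hd).1 hx
    exact ⟨⟨i, ⟨x, hi⟩⟩, rfl⟩
  refine (mk_le_of_surjective hsurj).trans ?_
  rw [mk_sigma]
  refine (sum_le_sum _ (fun _ => κ) hG).trans ?_
  rw [sum_const']
  refine (mul_le_mul_left hι κ).trans ?_
  rw [mul_eq_self hκ]

theorem construction (hcov : CovMeagre) : ∃ F : Subfield ℝ, √2 ∉ F ∧ (∀ s ∈ F, s ∈ NN) ∧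
    ∀ t, t ∉ F → √2 ∈ ext F t := by
  classical
  obtain ⟨r, wo, hr⟩ := Cardinal.ord_eq ℝ
  have hS : ∀ (K : Subfield ℝ) (t : ℝ), ∃ K' : Subfield ℝ, K ≤ K' ∧ (Good K → #K < 𝔠 →
      Good K' ∧ #K' ≤ max #K ℵ₀ ∧ (t ∈ K' ∨ √2 ∈ ext K' t)) := by
    intro K t
    by_cases h : Good K ∧ #K < 𝔠
    · obtain ⟨K', h1, h2, h3, h4⟩ := step hcov K h.1 h.2 t
      exact ⟨K', h1, fun _ _ => ⟨h2, h3, h4⟩⟩
    · exact ⟨K, le_rfl, fun h1 h2 => absurd ⟨h1, h2⟩ h⟩
  choose S hS1 hS2 using hS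
  let G : ℝ → Subfield ℝ := wo.wf.fix (fun x ih => S (⨆ y : {y // r y x}, ih y.1 y.2) x)
  have hGeq : ∀ x, G x = S (⨆ y : {y // r y x}, G y.1) x := fun x => wo.wf.fix_eq _ x
  have hmono : ∀ y x, r y x → G y ≤ G x := by
    intro y x hyx
    rw [hGeq x]
    exact (le_iSup (fun y : {y // r y x} => G y.1) ⟨y, hyx⟩).trans (hS1 _ _)
  have hdir0 : ∀ y z, ∃ w, (w = y ∨ w = z) ∧ G y ≤ G w ∧ G z ≤ G w := by
    intro y z
    rcases trichotomous_of r y z with h | h | h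
    · exact ⟨z, Or.inr rfl, hmono _ _ h, le_rfl⟩
    · subst h
      exact ⟨y, Or.inl rfl, le_rfl, le_rfl⟩
    · exact ⟨y, Or.inl rfl, le_rfl, hmono _ _ h⟩
  have hdirx : ∀ x, Directed (· ≤ ·) (fun y : {y // r y x} => G y.1) := by
    rintro x ⟨y, hy⟩ ⟨z, hz⟩
    obtain ⟨w, hw, h1, h2⟩ := hdir0 y z
    rcases hw with rfl | rfl
    · exact ⟨⟨w, hy⟩, h1, h2⟩
    · exact ⟨⟨w, hz⟩, h1, h2⟩
  have hdir : Directed (· ≤ ·) G := by
    intro y z
    obtain ⟨w, -, h1, h2⟩ := hdir0 y z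
    exact ⟨w, h1, h2⟩
  have hseg : ∀ x, #{y // r y x} < 𝔠 := by
    intro x
    have := card_typein_lt x hr
    rwa [mk_real] at this
  have hP : ∀ x, Good (G x) ∧ #(G x) ≤ max #{y // r y x} ℵ₀ ∧ (x ∈ G x ∨ √2 ∈ ext (G x) x) := by
    intro x
    induction x using wo.wf.induction with
    | _ x ih =>
      have hF : Good (⨆ y : {y // r y x}, G y.1) ∧
          #(⨆ y : {y // r y x}, G y.1 : Subfield ℝ) ≤ max #{y // r y x} ℵ₀ := by
        rcases isEmpty_or_nonempty {y // r y x} with he | hne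
        · rw [iSup_of_empty]
          exact ⟨good_bot, card_bot.trans (le_max_right _ _)⟩
        · refine ⟨good_iSup _ (hdirx x) fun y => (ih y.1 y.2).1, ?_⟩
          apply card_iSup _ (hdirx x) _ (le_max_right _ _) (le_max_left _ _)
          intro y
          refine (ih y.1 y.2).2.1.trans (max_le_max ?_ le_rfl)
          exact mk_subtype_mono fun z hz => _root_.trans hz y.2
      have hlt : #(⨆ y : {y // r y x}, G y.1 : Subfield ℝ) < 𝔠 :=
        lt_of_le_of_lt hF.2 (max_lt_cont (hseg x))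
      obtain ⟨h1, h2, h3⟩ := hS2 _ x hF.1 hlt
      rw [hGeq x]
      exact ⟨h1, h2.trans (max_le hF.2 (le_max_right _ _)), h3⟩
  refine ⟨⨆ x, G x, ?_, ?_, ?_⟩
  · exact (good_iSup G hdir fun x => (hP x).1).1
  · intro s hs
    obtain ⟨x, hx⟩ := (Subfield.mem_iSup_of_directed hdir).1 hs
    apply (hP x).1.2 s
    · exact (mem_Acl _ _).1 (le_Acl _ hx)
    · rw [ext_eq_self hx]
      exact (hP x).1.1
  · intro t ht
    rcases (hP t).2.2 with h | h
    · exact absurd ((Subfield.mem_iSup_of_directed hdir).2 ⟨t, h⟩) ht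
    · exact ext_mono (le_iSup G t) t h

theorem volume_NN : MeasureTheory.volume NN = 0 := by
  have h1 : MeasureTheory.volume {s : ℝ | IsAlgebraic (⊥ : Subfield ℝ) s} = 0 := by
    have : Countable (⊥ : Subfield ℝ) := mk_le_aleph0_iff.1 card_bot
    exact (Algebraic.countable (⊥ : Subfield ℝ) ℝ).measure_zero _
  have h2 : MeasureTheory.volume {s : ℝ | Liouville s} = 0 := volume_setOf_liouville
  exact MeasureTheory.measure_union_null h2 h1

end Pool.Agent.R32.MaxSub
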