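import Mathlib

/-! A meagreness lemma for algebraic functions of one real variable. -/

open Set Topology Polynomial

namespace Pool.Agent.R32.MaxSub

open scoped Polynomial.Bivariate

theorem continuous_evalEval (P : ℝ[X][Y]) : Continuous fun z : ℝ × ℝ => P.evalEval z.1 z.2 := by
  induction P using Polynomial.induction_on' with
  | add p q hp hq =>
    simp only [evalEval_add]
    exact hp.add hq
  | monomial n a =>
    have : (fun z : ℝ × ℝ => (monomial n a : ℝ[X][Y]).evalEval z.1 z.2)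
        = fun z => a.eval z.1 * z.2 ^ n := by
      funext z
      simp [evalEval, eval_monomial]
    rw [this]
    exact (a.continuous.comp continuous_fst).mul (continuous_snd.pow n)

/-- the polynomial in the second variable -/
theorem eval_map_x (P : ℝ[X][Y]) (x y : ℝ) :
    (P.map (evalRingHom x)).eval y = P.evalEval x y := by
  rw [← eval₂_evalRingHom, eval₂_eq_eval_map]

theorem strictMono_of_pos (P : ℝ[X][Y]) (x c d : ℝ)
    (h : ∀ y ∈ Icc c d, 0 < (derivative P).evalEval x y) :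
    StrictMonoOn (fun y => P.evalEval x y) (Icc c d) := by
  have e : (fun y => P.evalEval x y) = fun y => (P.map (evalRingHom x)).eval y := by
    funext y
    rw [eval_map_x]
  rw [e]
  apply strictMonoOn_of_deriv_pos (convex_Icc c d)
  · exact (P.map (evalRingHom x)).continuous.continuousOn
  · intro y hy
    rw [interior_Icc] at hy
    rw [Polynomial.deriv, derivative_map, eval_map_x]
    exact h y (Ioo_subset_Icc_self hy)

/-- The set for one box. -/
def boxSet (P : ℝ[X][Y]) (C : Set ℝ) (a b c d : ℝ) : Set ℝ :=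
  {x | x ∈ Ioo a b ∧ ∃ s ∈ Icc c d ∩ C, P.evalEval x s = 0 ∧ P.eval (Polynomial.C s) ≠ 0}

theorem boxSet_nowhereDense (P : ℝ[X][Y]) (C : Set ℝ) (a b c d : ℝ) (hC : IsClosed C)
    (hd : Dense Cᶜ)
    (h : ∀ x ∈ Ioo a b, ∀ y ∈ Icc c d, 0 < (derivative P).evalEval x y) :
    IsNowhereDense (boxSet P C a b c d) := by
  -- the projection
  set W : Set ℝ := {x | ∃ s ∈ Icc c d ∩ C, P.evalEval x s = 0} with hW
  have hWc : IsClosed W := by
    have hK : IsCompact (Icc c d ∩ C) := isCompact_Icc.inter_right hC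
    have : CompactSpace ↥(Icc c d ∩ C) := isCompact_iff_compactSpace.1 hK
    have hcl : IsClosed {z : ↥(Icc c d ∩ C) × ℝ | P.evalEval z.2 z.1.1 = 0} := by
      apply isClosed_eq _ continuous_const
      exact (continuous_evalEval P).comp
        (continuous_snd.prodMk (continuous_subtype_val.comp continuous_fst))
    have := isClosedMap_snd_of_compactSpace _ hcl
    convert this using 1
    ext x
    simp only [hW, mem_ofPred_eq, mem_image, Prod.exists, exists_eq_right, Subtype.exists]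
    constructor
    · rintro ⟨s, hs, h0⟩
      exact ⟨s, hs, h0⟩
    · rintro ⟨s, hs, h0⟩
      exact ⟨s, hs, h0⟩
  have hsub : closure (boxSet P C a b c d) ⊆ W := by
    apply closure_minimal _ hWc
    rintro x ⟨-, s, hs, h0, -⟩
    exact ⟨s, hs, h0⟩
  rw [IsNowhereDense, Set.eq_empty_iff_forall_notMem]
  intro x0 hx0
  -- an open interval in the closure and in `Ioo a b`
  have hopen : IsOpen (interior (closure (boxSet P C a b c d))) := isOpen_interior
  obtain ⟨z, hz1, hz2⟩ := mem_closure_iff.1 (interior_subset hx0) _ hopen hx0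
  have hz3 : z ∈ interior (closure (boxSet P C a b c d)) ∩ Ioo a b := ⟨hz1, hz2.1⟩
  obtain ⟨l, u, hzl, hlu⟩ := mem_nhds_iff_exists_Ioo_subset.1
    ((hopen.inter isOpen_Ioo).mem_nhds hz3)
  have hroot : ∀ x ∈ Ioo l u, ∃ s ∈ Icc c d ∩ C, P.evalEval x s = 0 := fun x hx =>
    hsub (interior_subset (hlu hx).1)
  -- all roots are equal
  have huniq : ∀ x ∈ Ioo l u, ∀ x' ∈ Ioo l u, ∀ s ∈ Icc c d ∩ C, ∀ s' ∈ Icc c d ∩ C,
      P.evalEval x s = 0 → P.evalEval x' s' = 0 → ¬ s < s' := by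
    intro x hx x' hx' s hs s' hs' h0 h0' hlt
    obtain ⟨g, hg, hgC⟩ : ∃ g ∈ Ioo s s', g ∈ Cᶜ := by
      obtain ⟨g, hg1, hg2⟩ := hd.inter_open_nonempty (Ioo s s') isOpen_Ioo (nonempty_Ioo.2 hlt)
      exact ⟨g, hg1, hg2⟩
    have hgI : g ∈ Icc c d := ⟨hs.1.1.trans hg.1.le, hg.2.le.trans hs'.1.2⟩
    have h1 : 0 < P.evalEval x g := by
      rw [← h0]
      exact strictMono_of_pos P x c d (h x (hlu hx).2) hs.1 hgI hg.1
    have h2 : P.evalEval x' g < 0 := by
      rw [← h0']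
      exact strictMono_of_pos P x' c d (h x' (hlu hx').2) hgI hs'.1 hg.2
    have hcont : ContinuousOn (fun y => P.evalEval y g) (Ioo l u) :=
      ((continuous_evalEval P).comp (continuous_id.prodMk continuous_const)).continuousOn
    obtain ⟨y, hy, hy0⟩ := isPreconnected_Ioo.intermediate_value hx' hx hcont
      (show (0 : ℝ) ∈ Icc (P.evalEval x' g) (P.evalEval x g) from ⟨h2.le, h1.le⟩)
    obtain ⟨s2, hs2, h02⟩ := hroot y hy
    have heq : s2 = g := (strictMono_of_pos P y c d (h y (hlu hy).2)).injOn hs2.1 hgI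
      (show P.evalEval y s2 = P.evalEval y g by rw [h02]; exact hy0.symm)
    exact hgC (heq ▸ hs2.2)
  obtain ⟨-, s, hs, h0, hne⟩ := hz2
  have hall : ∀ x ∈ Ioo l u, P.evalEval x s = 0 := by
    intro x hx
    obtain ⟨s', hs', h0'⟩ := hroot x hx
    have : s = s' := le_antisymm (not_lt.1 (huniq x hx z hzl s' hs' s hs h0' h0))
      (not_lt.1 (huniq z hzl x hx s hs s' hs' h0 h0'))
    rw [this]
    exact h0'
  apply hne
  apply Polynomial.eq_zero_of_infinite_isRoot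
  exact (Ioo_infinite (hzl.1.trans hzl.2)).mono fun x hx => hall x hx

/-- The exceptional set of a bivariate polynomial. -/
def badSet (P : ℝ[X][Y]) (N : Set ℝ) : Set ℝ :=
  {x | ∃ s, s ∉ N ∧ P.evalEval x s = 0 ∧ (derivative P).evalEval x s ≠ 0 ∧
    P.eval (Polynomial.C s) ≠ 0}

theorem box_of_pos (Q : ℝ[X][Y]) (x s : ℝ) (h : 0 < Q.evalEval x s) :
    ∃ a b c d : ℚ, x ∈ Ioo (a : ℝ) b ∧ s ∈ Icc (c : ℝ) d ∧
      ∀ x' ∈ Ioo (a : ℝ) b, ∀ y ∈ Icc (c : ℝ) d, 0 < Q.evalEval x' y := by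
  have hopen : IsOpen {z : ℝ × ℝ | 0 < Q.evalEval z.1 z.2} :=
    isOpen_lt continuous_const (continuous_evalEval Q)
  have hmem : {z : ℝ × ℝ | 0 < Q.evalEval z.1 z.2} ∈ 𝓝 (x, s) := hopen.mem_nhds h
  rw [nhds_prod_eq, Filter.mem_prod_iff] at hmem
  obtain ⟨U, hU, V, hV, hUV⟩ := hmem
  obtain ⟨l, u, hx, hlu⟩ := mem_nhds_iff_exists_Ioo_subset.1 hU
  obtain ⟨l', u', hs, hlu'⟩ := mem_nhds_iff_exists_Ioo_subset.1 hV
  obtain ⟨a, ha1, ha2⟩ := exists_rat_btwn hx.1
  obtain ⟨b, hb1, hb2⟩ := exists_rat_btwn hx.2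
  obtain ⟨c, hc1, hc2⟩ := exists_rat_btwn hs.1
  obtain ⟨d, hd1, hd2⟩ := exists_rat_btwn hs.2
  refine ⟨a, b, c, d, ⟨ha2, hb1⟩, ⟨hc2.le, hd1.le⟩, fun x' hx' y hy => ?_⟩
  exact hUV (show (x', y) ∈ U ×ˢ V from
    ⟨hlu ⟨ha1.trans hx'.1, hx'.2.trans hb2⟩, hlu' ⟨hc1.trans_le hy.1, hy.2.trans_lt hd2⟩⟩)

open Classical in
/-- The box set if the box is good. -/
noncomputable def boxOr (Q : ℝ[X][Y]) (C : Set ℝ) (a b c d : ℝ) : Set ℝ :=
  if ∀ x ∈ Ioo a b, ∀ y ∈ Icc c d, 0 < (derivative Q).evalEval x y then boxSet Q C a b c d else ∅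

theorem boxOr_meagre (Q : ℝ[X][Y]) (C : Set ℝ) (a b c d : ℝ) (hC : IsClosed C)
    (hd : Dense Cᶜ) : IsMeagre (boxOr Q C a b c d) := by
  unfold boxOr
  split_ifs with h
  · exact (boxSet_nowhereDense Q C a b c d hC hd h).isMeagre
  · exact IsMeagre.empty

theorem mem_boxOr (Q : ℝ[X][Y]) (C : Set ℝ) (a b c d x : ℝ)
    (h : ∀ x ∈ Ioo a b, ∀ y ∈ Icc c d, 0 < (derivative Q).evalEval x y)
    (hx : x ∈ boxSet Q C a b c d) : x ∈ boxOr Q C a b c d := by
  unfold boxOr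
  rw [if_pos h]
  exact hx

theorem badSet_meagre (P : ℝ[X][Y]) (N : Set ℝ) (hN : N ∈ residual ℝ) : IsMeagre (badSet P N) := by
  classical
  obtain ⟨S, hS1, hS2, hS3, hS4⟩ := mem_residual_iff.1 hN
  have : Countable S := hS3.to_subtype
  -- family of boxes
  let B : (S × (ℚ × ℚ × ℚ × ℚ) × Bool) → Set ℝ := fun i =>
    boxOr (if i.2.2 then P else -P) (i.1 : Set ℝ)ᶜ i.2.1.1 i.2.1.2.1 i.2.1.2.2.1 i.2.1.2.2.2
  have hB : ∀ i, IsMeagre (B i) := by
    intro i
    apply boxOr_meagre _ _ _ _ _ _ (hS1 _ i.1.2).isClosed_compl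
    rw [compl_compl]
    exact hS2 _ i.1.2
  have hU : IsMeagre (⋃ i, B i) := isMeagre_iUnion hB
  apply hU.mono
  rintro x ⟨s, hsN, h0, hd, hne⟩
  have hs : ∃ t : S, s ∈ (t : Set ℝ)ᶜ := by
    by_contra hcon
    push Not at hcon
    apply hsN
    apply hS4
    intro t ht
    have := hcon ⟨t, ht⟩
    simpa using this
  obtain ⟨t, ht⟩ := hs
  rw [mem_iUnion]
  rcases lt_or_gt_of_ne hd with hlt | hgt
  · have h1 : 0 < (derivative (-P)).evalEval x s := by
      rw [derivative_neg, evalEval_neg]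
      linarith
    obtain ⟨a, b, c, d, hx, hsI, hall⟩ := box_of_pos _ x s h1
    refine ⟨(t, (a, b, c, d), false), ?_⟩
    change x ∈ boxOr (-P) _ _ _ _ _
    refine mem_boxOr _ _ _ _ _ _ _ hall ?_
    refine ⟨hx, s, ⟨hsI, ht⟩, ?_, ?_⟩
    · rw [evalEval_neg, h0, neg_zero]
    · rw [eval_neg]
      exact neg_ne_zero.2 hne
  · obtain ⟨a, b, c, d, hx, hsI, hall⟩ := box_of_pos _ x s hgt
    refine ⟨(t, (a, b, c, d), true), ?_⟩
    change x ∈ boxOr P _ _ _ _ _
    exact mem_boxOr _ _ _ _ _ _ _ hall ⟨hx, s, ⟨hsI, ht⟩, h0, hne⟩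

end Pool.Agent.R32.MaxSub
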