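import Pool.Agent.R32.MaxSub.Meagre
import Pool.Agent.R32.MaxSub.Alg2

/-! The step of the construction. -/

open Set Polynomial Cardinal

namespace Pool.Agent.R32.MaxSub

open scoped Polynomial.Bivariate

/-- The real line is not the union of fewer than continuum many meagre sets. -/
def CovMeagre : Prop := ∀ (ι : Type) (A : ι → Set ℝ), #ι < 𝔠 → (∀ i, IsMeagre (A i)) →
  (⋃ i, A i) ≠ Set.univ

/-- The null set: Liouville numbers and algebraic numbers. -/
def NN : Set ℝ := {s | Liouville s ∨ IsAlgebraic (⊥ : Subfield ℝ) s}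

/-- Good subfields. -/
def Good (K : Subfield ℝ) : Prop :=
  √2 ∉ K ∧ ∀ s, IsAlgebraic K s → √2 ∉ ext K s → s ∈ NN

theorem card_alg (L : Subfield ℝ) : #{x : ℝ // IsAlgebraic L x} ≤ max #L ℵ₀ :=
  Algebraic.cardinalMk_le_max L ℝ

theorem card_ext (L : Subfield ℝ) (x : ℝ) : #(ext L x) ≤ max #L ℵ₀ := by
  have hsurj : Function.Surjective (fun z : (↥L)[X] × (↥L)[X] =>
      (⟨aeval x z.1 / aeval x z.2, (mem_ext_iff L x _).2 ⟨z.1, z.2, rfl⟩⟩ : ext L x)) := by
    rintro ⟨α, hα⟩
    obtain ⟨r, s, rfl⟩ := (mem_ext_iff L x α).1 hα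
    exact ⟨(r, s), rfl⟩
  refine (mk_le_of_surjective hsurj).trans ?_
  rw [mk_prod, lift_id]
  have h1 : #((↥L)[X]) ≤ max #L ℵ₀ := Polynomial.cardinalMk_le_max
  refine (mul_le_mul' h1 h1).trans ?_
  rw [mul_eq_self (le_max_right _ _)]

theorem max_lt_cont {κ : Cardinal.{0}} (h : κ < 𝔠) : max κ ℵ₀ < 𝔠 :=
  max_lt h aleph0_lt_continuum

/-- A real number which is generic over `L`. -/
theorem exists_generic (hcov : CovMeagre) (L : Subfield ℝ) (hL : #L < 𝔠) :
    ∃ x : ℝ, ¬ IsAlgebraic L x ∧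
      ∀ s, IsAlgebraic (ext L x) s → IsAlgebraic L s ∨ Liouville s := by
  classical
  let A : ((↥L)[X][Y] ⊕ {x : ℝ // IsAlgebraic L x}) → Set ℝ := fun i =>
    match i with
    | Sum.inl P => badSet (toR L P) {s | Liouville s}
    | Sum.inr x => {x.1}
  have hcard : #((↥L)[X][Y] ⊕ {x : ℝ // IsAlgebraic L x}) < 𝔠 := by
    rw [mk_sum, lift_id, lift_id]
    apply add_lt_of_lt aleph0_le_continuum
    · refine lt_of_le_of_lt (Polynomial.cardinalMk_le_max) ?_
      apply max_lt_cont
      exact lt_of_le_of_lt (Polynomial.cardinalMk_le_max) (max_lt_cont hL)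
    · exact lt_of_le_of_lt (card_alg L) (max_lt_cont hL)
  have hA : ∀ i, IsMeagre (A i) := by
    rintro (P | x)
    · exact badSet_meagre _ _ eventually_residual_liouville
    · apply IsNowhereDense.isMeagre
      rw [IsNowhereDense, closure_singleton]
      exact interior_singleton _
  have hne := hcov _ A hcard hA
  obtain ⟨x, hx⟩ := (ne_univ_iff_exists_notMem _).1 hne
  rw [mem_iUnion, not_exists] at hx
  have hx1 : ¬ IsAlgebraic L x := fun h => hx (Sum.inr ⟨x, h⟩) rfl
  refine ⟨x, hx1, fun s hs => ?_⟩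
  by_contra hcon
  push Not at hcon
  obtain ⟨P, h1, h2⟩ := exists_biv_sep L x s hs
  apply hx (Sum.inl P)
  refine ⟨s, hcon.2, h1, h2, ?_⟩
  apply eval_C_ne L P _ s hcon.1
  rintro rfl
  apply h2
  simp [toR]

theorem step (hcov : CovMeagre) (K : Subfield ℝ) (hK : Good K) (hcard : #K < 𝔠) (t : ℝ) :
    ∃ K' : Subfield ℝ, K ≤ K' ∧ Good K' ∧ #K' ≤ max #K ℵ₀ ∧ (t ∈ K' ∨ √2 ∈ ext K' t) := by
  by_cases h1 : √2 ∈ ext K t
  · exact ⟨K, le_rfl, hK, le_max_left _ _, Or.inr h1⟩
  by_cases h2 : IsAlgebraic K t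
  · refine ⟨ext K t, le_ext K t, ⟨h1, fun s hs h => ?_⟩, card_ext K t, Or.inl (self_mem_ext K t)⟩
    apply hK.2 s
    · have : ext K t ≤ Acl K := ext_le (le_Acl K) ((mem_Acl K t).2 h2)
      exact (mem_Acl K s).1 (Acl_le this ((mem_Acl _ s).2 hs))
    · exact fun h' => h (ext_mono (le_ext K t) s h')
  -- the main case
  set L0 := ext K (√2) with hL0
  set L := ext L0 t with hL
  have hKL0 : K ≤ L0 := le_ext _ _
  have hL0L : L0 ≤ L := le_ext _ _
  have hKL : K ≤ L := hKL0.trans hL0L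
  have hL0A : L0 ≤ Acl K := ext_le (le_Acl K) ((mem_Acl K _).2 (sqrt_alg K))
  have h2L : √2 ∈ L := hL0L (self_mem_ext _ _)
  have htL : t ∈ L := self_mem_ext _ _
  have hLcard : #L < 𝔠 := by
    refine lt_of_le_of_lt (card_ext _ _) (max_lt_cont ?_)
    exact lt_of_le_of_lt (card_ext _ _) (max_lt_cont hcard)
  obtain ⟨x, hx, hgen⟩ := exists_generic hcov L hLcard
  set k1 := t - x * √2 with hk1
  set K' := ext (ext K x) k1 with hK'
  have hxK' : x ∈ K' := le_ext _ _ (self_mem_ext K x)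
  have hk1K' : k1 ∈ K' := self_mem_ext _ _
  have hKK' : K ≤ K' := (le_ext K x).trans (le_ext _ _)
  have hK'L : K' ≤ ext L x := by
    apply ext_le
    · exact ext_mono hKL x
    · exact Subfield.sub_mem _ (le_ext L x htL)
        (Subfield.mul_mem _ (self_mem_ext L x) (le_ext L x h2L))
  have hxK : ¬ IsAlgebraic K x := fun h =>
    hx ((mem_Acl _ _).1 (Acl_mono hKL ((mem_Acl _ _).2 h)))
  have hk1alg : ¬ IsAlgebraic (ext K x) k1 := by
    intro h
    have ht : t ∈ Acl (ext K x) := by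
      have e : t = k1 + x * √2 := by rw [hk1]; ring
      rw [e]
      exact Subfield.add_mem _ ((mem_Acl _ _).2 h)
        (Subfield.mul_mem _ (le_Acl _ (self_mem_ext K x)) ((mem_Acl _ _).2 (sqrt_alg _)))
    have h3 := exchange ((mem_Acl _ _).1 ht) h2
    apply hx
    have h4 : ext K t ≤ L := ext_le hKL htL
    exact (mem_Acl _ _).1 (Acl_mono h4 ((mem_Acl _ _).2 h3))
  have hsq : √2 ∉ K' := sqrt_not_mem_ext (sqrt_not_mem_ext hK.1 hxK) hk1alg
  refine ⟨K', hKK', ⟨hsq, fun s hs h => ?_⟩, ?_, Or.inr ?_⟩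
  · have hs1 : IsAlgebraic (ext L x) s := (mem_Acl _ _).1 (Acl_mono hK'L ((mem_Acl _ _).2 hs))
    rcases hgen s hs1 with h3 | h3
    · apply hK.2 s
      · -- `s` is algebraic over `K`
        by_contra h4
        have h5 : ¬ IsAlgebraic L0 s := fun h' =>
          h4 ((mem_Acl _ _).1 (Acl_le hL0A ((mem_Acl _ _).2 h')))
        have h6 : IsAlgebraic (ext L0 s) t := exchange h3 h5
        have h7 : t ∈ Acl (ext K s) := by
          have h8 : ext L0 s ≤ Acl (ext K s) := by
            apply ext_le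
            · exact hL0A.trans (Acl_mono (le_ext K s))
            · exact le_Acl _ (self_mem_ext K s)
          exact Acl_le h8 ((mem_Acl _ _).2 h6)
        have e : t = k1 + x * √2 := by rw [hk1]; ring
        have hsub : ext K s ≤ ext K' s := ext_mono hKK' s
        have h9 : IsAlgebraic (ext K s) (k1 - x * √2) := by
          apply conj_root hsub h (le_ext K' s hk1K') (le_ext K' s hxK')
          rw [← e]
          exact (mem_Acl _ _).1 h7
        have h10 : x ∈ Acl (ext K s) := by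
          have hpos : (0 : ℝ) < √2 := Real.sqrt_pos.2 (by norm_num)
          have e2 : x = (t - (k1 - x * √2)) / (√2 + √2) := by
            rw [hk1]
            field_simp
            ring
          rw [e2]
          have h11 : √2 ∈ Acl (ext K s) := (mem_Acl _ _).2 (sqrt_alg _)
          exact Subfield.div_mem _ (Subfield.sub_mem _ h7 ((mem_Acl _ _).2 h9))
            (Subfield.add_mem _ h11 h11)
        apply hx
        have h12 : ext K s ≤ Acl L := ext_le (hKL.trans (le_Acl L)) ((mem_Acl _ _).2 h3)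
        exact (mem_Acl _ _).1 (Acl_le h12 h10)
      · exact fun h' => h (ext_mono hKK' s h')
    · exact Or.inl h3
  · refine (card_ext _ _).trans (max_le ?_ (le_max_right _ _))
    exact card_ext _ _
  · have hx0 : x ≠ 0 := by
      rintro rfl
      exact hx (isAlgebraic_zero)
    have e : √2 = (t - k1) / x := by
      rw [hk1]
      field_simp
      ring
    rw [e]
    exact Subfield.div_mem _ (Subfield.sub_mem _ (self_mem_ext _ _) (le_ext _ _ hk1K'))
      (le_ext _ _ hxK')

end Pool.Agent.R32.MaxSub
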